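import Pool.Agent.Lib.MP_80160f_co.Clu

/-!
# MP_80160f_co, fractional partitions : light 2-bases

Multigraphs are given by the end maps `s t : E → α` and a finite set `F` of edges. `Cl s t F S` : every
nonempty set `X` of vertices spans at most `3 (|X| - 1) / 2` edges, with equality for the set `S` of all
vertices. For every weight there is a set `B` of `|F| / 3` edges which collapses the graph and has at
most a third of the total weight.
-/

set_option autoImplicit false
set_option linter.unusedSectionVars false

namespace TB.Frac

open Finset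

variable {α E : Type*} [DecidableEq α] [DecidableEq E]

/-- the edges between two vertices -/
def bet (s t : E → α) (F : Finset E) (a b : α) : Finset E :=
  F.filter fun e => (s e = a ∧ t e = b) ∨ (s e = b ∧ t e = a)

/-- the number of edges between two vertices, where the edges of `B` count twice -/
def W (s t : E → α) (F B : Finset E) (a b : α) : ℕ := (bet s t F a b).card + (bet s t B a b).card

/-- the edges inside of a set -/
def ins (s t : E → α) (F : Finset E) (X : Finset α) : Finset E :=
  F.filter fun e => s e ∈ X ∧ t e ∈ X

/-- the edges at a vertex -/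
def star (s t : E → α) (F : Finset E) (a : α) : Finset E :=
  F.filter fun e => s e = a ∨ t e = a

/-- the class of graphs -/
structure Cl (s t : E → α) (F : Finset E) (S : Finset α) : Prop where
  ne : S.Nonempty
  mem : ∀ e ∈ F, s e ∈ S ∧ t e ∈ S
  sp : ∀ X ⊆ S, X.Nonempty → 2 * (ins s t F X).card + 3 ≤ 3 * X.card
  tot : 2 * F.card + 3 = 3 * S.card

variable {s t : E → α} {F : Finset E} {S : Finset α}

theorem mem_ins {X : Finset α} {e : E} : e ∈ ins s t F X ↔ e ∈ F ∧ s e ∈ X ∧ t e ∈ X := mem_filter

theorem mem_star {a : α} {e : E} : e ∈ star s t F a ↔ e ∈ F ∧ (s e = a ∨ t e = a) := mem_filter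

theorem Cl.ne_ends (h : Cl s t F S) {e : E} (he : e ∈ F) : s e ≠ t e := by
  intro h1
  have h2 := h.sp {s e} (singleton_subset_iff.2 (h.mem e he).1) (singleton_nonempty _)
  have h3 : 0 < (ins s t F {s e}).card :=
    card_pos.2 ⟨e, mem_ins.2 ⟨he, mem_singleton_self _, h1 ▸ mem_singleton_self _⟩⟩
  rw [card_singleton] at h2
  omega

/-- every vertex has degree at least two -/
theorem Cl.two_le (h : Cl s t F S) (hS : 2 ≤ S.card) {x : α} (hx : x ∈ S) :
    2 ≤ (star s t F x).card := by
  have h1 : (S.erase x).card = S.card - 1 := card_erase_of_mem hx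
  have h2 := h.sp (S.erase x) (erase_subset _ _) (card_pos.1 (by omega))
  have h3 : F ⊆ ins s t F (S.erase x) ∪ star s t F x := by
    intro e he
    by_cases h4 : s e = x ∨ t e = x
    · exact mem_union_right _ (mem_star.2 ⟨he, h4⟩)
    · rw [not_or] at h4
      exact mem_union_left _ (mem_ins.2 ⟨he, mem_erase.2 ⟨h4.1, (h.mem e he).1⟩,
        mem_erase.2 ⟨h4.2, (h.mem e he).2⟩⟩)
  have h4 := (card_le_card h3).trans (card_union_le _ _)
  have h5 := h.tot
  omega

/-- the sum of the degrees -/
theorem Cl.sum_deg (h : Cl s t F S) : ∑ x ∈ S, (star s t F x).card = 2 * F.card := by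
  have h1 : ∀ x ∈ S, (star s t F x).card = ∑ e ∈ F, ((if s e = x then 1 else 0) +
      if t e = x then 1 else 0) := by
    intro x _
    unfold star
    rw [card_filter]
    refine sum_congr rfl fun e he => ?_
    have h2 := h.ne_ends he
    by_cases h3 : s e = x
    · have h4 : t e ≠ x := fun h5 => h2 (h3.trans h5.symm)
      simp [h3, h4]
    · simp [h3]
  rw [sum_congr rfl h1, sum_comm]
  have h2 : ∀ e ∈ F, ∑ x ∈ S, ((if s e = x then 1 else 0) + if t e = x then 1 else 0) = 2 := by
    intro e he
    rw [sum_add_distrib, sum_ite_eq, sum_ite_eq, if_pos (h.mem e he).1, if_pos (h.mem e he).2]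
  rw [sum_congr rfl h2, sum_const, smul_eq_mul, mul_comm]

/-- a vertex of degree two which is not an end of a given edge -/
theorem Cl.exists_deg (h : Cl s t F S) (hS : 2 ≤ S.card) {g : E} (hg : g ∈ F) :
    ∃ a ∈ S, a ≠ s g ∧ a ≠ t g ∧ (star s t F a).card = 2 := by
  by_contra hcon
  have h1 : ∀ x ∈ (S.erase (s g)).erase (t g), 3 ≤ (star s t F x).card := by
    intro x hx
    have hx1 := mem_erase.1 hx
    have hx2 := mem_erase.1 hx1.2
    have h2 := h.two_le hS hx2.2
    have h3 : (star s t F x).card ≠ 2 := fun h4 => hcon ⟨x, hx2.2, hx2.1, hx1.1, h4⟩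
    omega
  have hm := h.mem g hg
  have hts : t g ∈ S.erase (s g) := mem_erase.2 ⟨(h.ne_ends hg).symm, hm.2⟩
  have h2 := h.sum_deg
  rw [← add_sum_erase S _ hm.1, ← add_sum_erase (S.erase (s g)) _ hts] at h2
  have h3 := card_nsmul_le_sum _ _ 3 h1
  rw [card_erase_of_mem hts, card_erase_of_mem hm.1, smul_eq_mul] at h3
  have h4 := h.two_le hS hm.1
  have h5 := h.two_le hS hm.2
  have h6 := h.tot
  omega

/-- the expansion of contracted vertices -/
theorem bet_le {s' t' : E → α} {F' : Finset E} (f : α → Finset α) (hF : F' ⊆ F)
    (hs : ∀ e ∈ F', s e ∈ f (s' e)) (ht : ∀ e ∈ F', t e ∈ f (t' e)) (a b : α) :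
    (bet s' t' F' a b).card ≤ ∑ p ∈ f a, ∑ q ∈ f b, (bet s t F p q).card := by
  have h1 : bet s' t' F' a b ⊆ (f a).biUnion fun p => (f b).biUnion fun q => bet s t F p q := by
    intro e he
    have h2 := mem_filter.1 he
    rw [mem_biUnion]
    rcases h2.2 with ⟨h3, h4⟩ | ⟨h3, h4⟩
    · refine ⟨s e, h3 ▸ hs e h2.1, ?_⟩
      rw [mem_biUnion]
      exact ⟨t e, h4 ▸ ht e h2.1, mem_filter.2 ⟨hF h2.1, Or.inl ⟨rfl, rfl⟩⟩⟩
    · refine ⟨t e, h4 ▸ ht e h2.1, ?_⟩
      rw [mem_biUnion]
      exact ⟨s e, h3 ▸ hs e h2.1, mem_filter.2 ⟨hF h2.1, Or.inr ⟨rfl, rfl⟩⟩⟩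
  refine (card_le_card h1).trans (card_biUnion_le.trans ?_)
  exact sum_le_sum fun p _ => card_biUnion_le

theorem W_le {s' t' : E → α} {F' B' B : Finset E} (f : α → Finset α) (hF : F' ⊆ F) (hB : B' ⊆ B)
    (hBF : B' ⊆ F') (hs : ∀ e ∈ F', s e ∈ f (s' e)) (ht : ∀ e ∈ F', t e ∈ f (t' e)) (a b : α) :
    W s' t' F' B' a b ≤ wt (W s t F B) (f a) (f b) := by
  have h1 := bet_le f hF hs ht a b
  have h2 := bet_le (F := B) f hB (fun e he => hs e (hBF he)) (fun e he => ht e (hBF he)) a b
  unfold W wt
  simp only [sum_add_distrib]
  exact add_le_add h1 h2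

theorem bet_mono {F' : Finset E} (h : F' ⊆ F) (a b : α) : bet s t F' a b ⊆ bet s t F a b :=
  filter_subset_filter _ h

theorem W_mono {F' B' B : Finset E} (hF : F' ⊆ F) (hB : B' ⊆ B) (a b : α) :
    W s t F' B' a b ≤ W s t F B a b :=
  add_le_add (card_le_card (bet_mono hF a b)) (card_le_card (bet_mono hB a b))

/-- a vertex of degree two is added at the end -/
theorem clu_add {B : Finset E} (h : Cl s t F S) {a : α} (ha : a ∈ S)
    (h2 : 2 ≤ (star s t F a).card) (hc : Clu (W s t F B) (S.erase a)) : Clu (W s t F B) S := by
  refine Clu.union hc (Clu.single a) (disjoint_singleton_right.2 (notMem_erase a S)) ?_ ?_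
  · refine h2.trans ?_
    have h3 : star s t F a ⊆ (S.erase a).biUnion fun z => bet s t F z a := by
      intro e he
      have h4 := mem_star.1 he
      have h5 := h.ne_ends h4.1
      rw [mem_biUnion]
      rcases h4.2 with h6 | h6
      · refine ⟨t e, mem_erase.2 ⟨fun h7 => h5 (h6.trans h7.symm), (h.mem e h4.1).2⟩, ?_⟩
        exact mem_filter.2 ⟨h4.1, Or.inr ⟨h6, rfl⟩⟩
      · refine ⟨s e, mem_erase.2 ⟨fun h7 => h5 (h7.trans h6.symm), (h.mem e h4.1).1⟩, ?_⟩
        exact mem_filter.2 ⟨h4.1, Or.inl ⟨rfl, h6⟩⟩
    refine (card_le_card h3).trans (card_biUnion_le.trans ?_)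
    unfold wt
    refine sum_le_sum fun z _ => ?_
    rw [sum_singleton]
    exact Nat.le_add_right _ _
  · ext z
    rw [mem_union, mem_singleton, mem_erase]
    constructor
    · rintro (h3 | h3)
      · exact h3.2
      · exact h3 ▸ ha
    · intro h3
      by_cases h4 : z = a
      · exact Or.inr h4
      · exact Or.inl ⟨h4, h3⟩

variable {R : Type*} [Field R] [LinearOrder R] [IsStrictOrderedRing R]

/-- **light 2-bases** -/
theorem exists_light : ∀ (n : ℕ) (S : Finset α), S.card = n → ∀ (s t : E → α) (F : Finset E)
    (w : E → R), Cl s t F S →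
    ∃ B ⊆ F, 3 * B.card = F.card ∧ 3 * ∑ e ∈ B, w e ≤ ∑ e ∈ F, w e ∧ Clu (W s t F B) S := by
  intro n
  induction n using Nat.strong_induction_on with
  | _ n ih =>
  intro S hn s t F w h
  have h0 := card_pos.2 h.ne
  by_cases h1 : S.card = 1
  · -- one vertex
    have hF : F = ∅ := by
      have := h.tot
      exact card_eq_zero.1 (by omega)
    refine ⟨∅, empty_subset _, by rw [hF]; rfl, by rw [hF]; simp, ?_⟩
    obtain ⟨x, hx⟩ := card_eq_one.1 h1
    rw [hx]
    exact Clu.single x
  have hS2 : 2 ≤ S.card := by omega
  by_cases hp : ∃ X ⊆ S, 2 ≤ X.card ∧ X.card < S.card ∧ 3 * X.card ≤ 2 * (ins s t F X).card + 3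
  · -- a tight set
    obtain ⟨X, hXS, hX2, hXlt, hXt⟩ := hp
    obtain ⟨x0, hx0⟩ := card_pos.1 (show 0 < X.card by omega)
    have hXne : X.Nonempty := ⟨x0, hx0⟩
    have hXeq : 2 * (ins s t F X).card + 3 = 3 * X.card := le_antisymm (h.sp X hXS hXne) hXt
    -- the inner graph
    have hC1 : Cl s t (ins s t F X) X := by
      refine ⟨hXne, fun e he => (mem_ins.1 he).2, ?_, hXeq⟩
      intro Y hY hYne
      refine le_trans ?_ (h.sp Y (hY.trans hXS) hYne)
      have : ins s t (ins s t F X) Y ⊆ ins s t F Y := by
        intro e he
        have h2 := mem_ins.1 he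
        exact mem_ins.2 ⟨(mem_ins.1 h2.1).1, h2.2⟩
      have := card_le_card this
      omega
    obtain ⟨B1, hB1, hc1, hw1, hclu1⟩ := ih X.card (hn ▸ hXlt) X rfl s t _ w hC1
    -- the contracted graph
    set π : α → α := fun z => if z ∈ X then x0 else z with hπ
    have hπX : ∀ z ∈ X, π z = x0 := fun z hz => if_pos hz
    have hπn : ∀ z, z ∉ X → π z = z := fun z hz => if_neg hz
    set S' : Finset α := insert x0 (S \ X) with hS'
    have hx0S : x0 ∉ S \ X := fun h2 => (mem_sdiff.1 h2).2 hx0
    have hS'c : S'.card = S.card - X.card + 1 := by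
      rw [hS', card_insert_of_notMem hx0S, card_sdiff_of_subset hXS]
    have hπS : ∀ z ∈ S, π z ∈ S' := by
      intro z hz
      by_cases h2 : z ∈ X
      · rw [hπX z h2]
        exact mem_insert_self _ _
      · rw [hπn z h2]
        exact mem_insert_of_mem (mem_sdiff.2 ⟨hz, h2⟩)
    have hinsF : ins s t F X ⊆ F := filter_subset _ _
    have hF2c : (F \ ins s t F X).card = F.card - (ins s t F X).card := card_sdiff_of_subset hinsF
    have hle := card_le_card hinsF
    have hC2 : Cl (fun e => π (s e)) (fun e => π (t e)) (F \ ins s t F X) S' := by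
      refine ⟨⟨x0, mem_insert_self _ _⟩, ?_, ?_, ?_⟩
      · intro e he
        have h2 := h.mem e (mem_sdiff.1 he).1
        exact ⟨hπS _ h2.1, hπS _ h2.2⟩
      · intro Y hY hYne
        by_cases hxY : x0 ∈ Y
        · -- the preimage
          set Z : Finset α := (Y.erase x0) ∪ X with hZ
          have hdis : Disjoint (Y.erase x0) X := by
            rw [Finset.disjoint_left]
            intro z hz hzX
            have h2 := mem_erase.1 hz
            rcases mem_insert.1 (hY h2.2) with h3 | h3
            · exact h2.1 h3
            · exact (mem_sdiff.1 h3).2 hzX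
          have hZc : Z.card = Y.card - 1 + X.card := by
            rw [hZ, card_union_of_disjoint hdis, card_erase_of_mem hxY]
          have hZS : Z ⊆ S := by
            intro z hz
            rcases mem_union.1 hz with h2 | h2
            · have h3 := mem_erase.1 h2
              rcases mem_insert.1 (hY h3.2) with h4 | h4
              · exact absurd h4 h3.1
              · exact (mem_sdiff.1 h4).1
            · exact hXS h2
          have hpre : ∀ z, π z ∈ Y → z ∈ Z := by
            intro z hz
            by_cases h2 : z ∈ X
            · exact mem_union_right _ h2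
            · rw [hπn z h2] at hz
              refine mem_union_left _ (mem_erase.2 ⟨fun h3 => h2 (h3 ▸ hx0), hz⟩)
          have h2 : ins (fun e => π (s e)) (fun e => π (t e)) (F \ ins s t F X) Y ∪ ins s t F X ⊆
              ins s t F Z := by
            intro e he
            rcases mem_union.1 he with he | he
            · have h3 := mem_ins.1 he
              exact mem_ins.2 ⟨(mem_sdiff.1 h3.1).1, hpre _ h3.2.1, hpre _ h3.2.2⟩
            · have h3 := mem_ins.1 he
              exact mem_ins.2 ⟨h3.1, mem_union_right _ h3.2.1, mem_union_right _ h3.2.2⟩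
          have h3 : Disjoint (ins (fun e => π (s e)) (fun e => π (t e)) (F \ ins s t F X) Y)
              (ins s t F X) := by
            rw [Finset.disjoint_left]
            intro e he he'
            exact (mem_sdiff.1 (mem_ins.1 he).1).2 he'
          have h4 := card_le_card h2
          rw [card_union_of_disjoint h3] at h4
          have h5 := h.sp Z hZS ⟨x0, mem_union_right _ hx0⟩
          have h6 := card_pos.2 hYne
          omega
        · have hYS : Y ⊆ S := by
            intro z hz
            rcases mem_insert.1 (hY hz) with h2 | h2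
            · exact absurd (h2 ▸ hz) hxY
            · exact (mem_sdiff.1 h2).1
          have hpre : ∀ z, π z ∈ Y → z ∈ Y := by
            intro z hz
            by_cases h2 : z ∈ X
            · rw [hπX z h2] at hz
              exact absurd hz hxY
            · rw [hπn z h2] at hz
              exact hz
          have h2 : ins (fun e => π (s e)) (fun e => π (t e)) (F \ ins s t F X) Y ⊆
              ins s t F Y := by
            intro e he
            have h3 := mem_ins.1 he
            exact mem_ins.2 ⟨(mem_sdiff.1 h3.1).1, hpre _ h3.2.1, hpre _ h3.2.2⟩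
          have h3 := card_le_card h2
          have h4 := h.sp Y hYS hYne
          omega
      · have := h.tot
        omega
    obtain ⟨B2, hB2, hc2, hw2, hclu2⟩ := ih S'.card (by omega) S' rfl _ _ _ w hC2
    have hBd : Disjoint B1 B2 := by
      rw [Finset.disjoint_left]
      intro e he he'
      exact (mem_sdiff.1 (hB2 he')).2 (hB1 he)
    have hB1F : B1 ⊆ F := hB1.trans hinsF
    have hB2F : B2 ⊆ F := hB2.trans sdiff_subset
    refine ⟨B1 ∪ B2, union_subset hB1F hB2F, ?_, ?_, ?_⟩
    · rw [card_union_of_disjoint hBd]
      omega
    · rw [sum_union hBd, mul_add, ← sum_sdiff hinsF]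
      linarith
    · have h2 := Clu.expand (W := W s t F (B1 ∪ B2)) (fun z => if z = x0 then X else {z}) hclu2
        ?_ ?_ ?_
      · convert h2
        ext z
        rw [mem_biUnion]
        constructor
        · intro hz
          by_cases h3 : z ∈ X
          · exact ⟨x0, mem_insert_self _ _, by rw [if_pos rfl]; exact h3⟩
          · have h4 : z ≠ x0 := fun h5 => h3 (by rw [h5]; exact hx0)
            refine ⟨z, mem_insert_of_mem (mem_sdiff.2 ⟨hz, h3⟩), ?_⟩
            rw [if_neg h4]
            exact mem_singleton_self z
        · rintro ⟨y, hy, hzy⟩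
          by_cases h3 : y = x0
          · rw [if_pos h3] at hzy
            exact hXS hzy
          · rw [if_neg h3, mem_singleton] at hzy
            rcases mem_insert.1 hy with h4 | h4
            · exact absurd h4 h3
            · rw [hzy]
              exact (mem_sdiff.1 h4).1
      · intro y _
        by_cases h3 : y = x0
        · simp only [if_pos h3]
          exact hclu1.mono fun a _ b _ => W_mono hinsF subset_union_left a b
        · simp only [if_neg h3]
          exact Clu.single y
      · intro y hy z hz hyz
        have key : ∀ u ∈ S', u ≠ x0 → u ∉ X := by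
          intro u hu hne
          rcases mem_insert.1 hu with h4 | h4
          · exact absurd h4 hne
          · exact (mem_sdiff.1 h4).2
        by_cases h3 : y = x0
        · have h4 : z ≠ x0 := fun h5 => hyz (h3.trans h5.symm)
          simp only [if_pos h3, if_neg h4]
          exact disjoint_singleton_right.2 (key z hz h4)
        · by_cases h4 : z = x0
          · simp only [if_neg h3, if_pos h4]
            exact disjoint_singleton_left.2 (key y hy h3)
          · simp only [if_neg h3, if_neg h4]
            exact disjoint_singleton.2 hyz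
      · intro y _ z _ _
        have hf : ∀ u, u ∈ (if π u = x0 then X else {π u} : Finset α) := by
          intro u
          by_cases h3 : u ∈ X
          · rw [if_pos (hπX u h3)]
            exact h3
          · have h4 : u ≠ x0 := fun h5 => h3 (by rw [h5]; exact hx0)
            rw [hπn u h3, if_neg h4]
            exact mem_singleton_self u
        exact W_le (fun z => if z = x0 then X else {z}) sdiff_subset subset_union_right hB2
          (fun e _ => hf (s e)) (fun e _ => hf (t e)) y z
  · -- no tight set
    have hprime : ∀ X ⊆ S, 2 ≤ X.card → X.card < S.card →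
        2 * (ins s t F X).card + 4 ≤ 3 * X.card := by
      intro X hX h2 h3
      by_contra h4
      exact hp ⟨X, hX, h2, h3, by omega⟩
    have hFne : F.Nonempty := by
      have := h.tot
      exact card_pos.1 (by omega)
    obtain ⟨g, hg, hgmin⟩ := exists_min_image F w hFne
    obtain ⟨a, haS, hax, hay, hdeg⟩ := h.exists_deg hS2 hg
    set x := s g with hx
    set y := t g with hy
    have hxy : x ≠ y := h.ne_ends hg
    have hxS : x ∈ S := (h.mem g hg).1
    have hyS : y ∈ S := (h.mem g hg).2
    set π : α → α := fun z => if z = y then x else z with hπ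
    have hπy : π y = x := if_pos rfl
    have hπn : ∀ z, z ≠ y → π z = z := fun z hz => if_neg hz
    set S' : Finset α := (S.erase a).erase y with hS'
    have hya : y ∈ S.erase a := mem_erase.2 ⟨hay.symm, hyS⟩
    have hS'c : S'.card = S.card - 2 := by
      rw [hS', card_erase_of_mem hya, card_erase_of_mem haS]
      omega
    have hxS' : x ∈ S' := mem_erase.2 ⟨hxy, mem_erase.2 ⟨hax.symm, hxS⟩⟩
    have hstarF : star s t F a ⊆ F := filter_subset _ _
    have hgstar : g ∉ star s t F a := by
      intro h2
      rcases (mem_star.1 h2).2 with h3 | h3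
      · exact hax h3.symm
      · exact hay h3.symm
    set F' : Finset E := (F \ star s t F a).erase g with hF'
    have hgm : g ∈ F \ star s t F a := mem_sdiff.2 ⟨hg, hgstar⟩
    have hF'c : F'.card + 3 = F.card := by
      have h2 := card_le_card hstarF
      have h3 := card_pos.2 ⟨g, hgm⟩
      rw [card_sdiff_of_subset hstarF] at h3
      rw [hF', card_erase_of_mem hgm, card_sdiff_of_subset hstarF]
      omega
    have hF'F : F' ⊆ F := (erase_subset _ _).trans sdiff_subset
    have hC : Cl (fun e => π (s e)) (fun e => π (t e)) F' S' := by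
      refine ⟨⟨x, hxS'⟩, ?_, ?_, ?_⟩
      · intro e he
        have h2 := mem_sdiff.1 (mem_erase.1 he).2
        have h3 := h.mem e h2.1
        have key : ∀ z ∈ S, z ≠ a → π z ∈ S' := by
          intro z hz hza
          by_cases h4 : z = y
          · rw [h4, hπy]
            exact hxS'
          · rw [hπn z h4]
            exact mem_erase.2 ⟨h4, mem_erase.2 ⟨hza, hz⟩⟩
        exact ⟨key _ h3.1 fun h4 => h2.2 (mem_star.2 ⟨h2.1, Or.inl h4⟩),
          key _ h3.2 fun h4 => h2.2 (mem_star.2 ⟨h2.1, Or.inr h4⟩)⟩
      · intro Y hY hYne
        have hYS : Y ⊆ S := hY.trans ((erase_subset _ _).trans (erase_subset _ _))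
        have hyY : y ∉ Y := fun h2 => (mem_erase.1 (hY h2)).1 rfl
        have haY : a ∉ Y := fun h2 => (mem_erase.1 (mem_erase.1 (hY h2)).2).1 rfl
        by_cases hxY : x ∈ Y
        · have hpre : ∀ z, π z ∈ Y → z ∈ insert y Y := by
            intro z hz
            by_cases h2 : z = y
            · exact h2 ▸ mem_insert_self _ _
            · rw [hπn z h2] at hz
              exact mem_insert_of_mem hz
          have h2 : ins (fun e => π (s e)) (fun e => π (t e)) F' Y ⊆
              (ins s t F (insert y Y)).erase g := by
            intro e he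
            have h3 := mem_ins.1 he
            exact mem_erase.2 ⟨(mem_erase.1 h3.1).1,
              mem_ins.2 ⟨hF'F h3.1, hpre _ h3.2.1, hpre _ h3.2.2⟩⟩
          have hgi : g ∈ ins s t F (insert y Y) :=
            mem_ins.2 ⟨hg, mem_insert_of_mem hxY, mem_insert_self _ _⟩
          have h3 := card_le_card h2
          rw [card_erase_of_mem hgi] at h3
          have h4 := card_pos.2 ⟨g, hgi⟩
          have hc : (insert y Y).card = Y.card + 1 := card_insert_of_notMem hyY
          have hlt : (insert y Y).card < S.card := by
            apply card_lt_card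
            refine ⟨insert_subset hyS hYS, fun h5 => ?_⟩
            rcases mem_insert.1 (h5 haS) with h6 | h6
            · exact hay h6
            · exact haY h6
          have h5 := card_pos.2 hYne
          have h6 := hprime (insert y Y) (insert_subset hyS hYS) (by omega) hlt
          omega
        · have hpre : ∀ z, π z ∈ Y → z ∈ Y := by
            intro z hz
            by_cases h2 : z = y
            · rw [h2, hπy] at hz
              exact absurd hz hxY
            · rw [hπn z h2] at hz
              exact hz
          have h2 : ins (fun e => π (s e)) (fun e => π (t e)) F' Y ⊆ ins s t F Y := by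
            intro e he
            have h3 := mem_ins.1 he
            exact mem_ins.2 ⟨hF'F h3.1, hpre _ h3.2.1, hpre _ h3.2.2⟩
          have h3 := card_le_card h2
          have h4 := h.sp Y hYS hYne
          omega
      · have := h.tot
        omega
    obtain ⟨B', hB', hc', hw', hclu'⟩ := ih S'.card (by omega) S' rfl _ _ _ w hC
    have hgB' : g ∉ B' := fun h2 => (mem_erase.1 (hB' h2)).1 rfl
    refine ⟨insert g B', insert_subset hg (hB'.trans hF'F), ?_, ?_, ?_⟩
    · rw [card_insert_of_notMem hgB']
      omega
    · rw [sum_insert hgB', mul_add]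
      have h2 : ∑ e ∈ F, w e = ∑ e ∈ F', w e + w g + ∑ e ∈ star s t F a, w e := by
        rw [← sum_sdiff hstarF, ← add_sum_erase _ w hgm]
        ring
      have h3 : 2 * w g ≤ ∑ e ∈ star s t F a, w e := by
        have h4 := card_nsmul_le_sum (star s t F a) w (w g) fun e he => hgmin e (hstarF he)
        rw [hdeg, nsmul_eq_mul] at h4
        exact_mod_cast h4
      rw [h2]
      linarith
    · apply clu_add h haS hdeg.ge
      have h2 := Clu.expand (W := W s t F (insert g B')) (fun z => if z = x then {x, y} else {z})
        hclu' ?_ ?_ ?_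
      · convert h2
        ext z
        rw [mem_biUnion]
        constructor
        · intro hz
          by_cases h3 : z = y
          · exact ⟨x, hxS', by rw [if_pos rfl, h3]; exact mem_insert_of_mem (mem_singleton_self _)⟩
          · by_cases h4 : z = x
            · exact ⟨x, hxS', by rw [if_pos rfl, h4]; exact mem_insert_self _ _⟩
            · exact ⟨z, mem_erase.2 ⟨h3, hz⟩, by rw [if_neg h4]; exact mem_singleton_self _⟩
        · rintro ⟨u, hu, hzu⟩
          have hu2 := (mem_erase.1 hu).2
          by_cases h3 : u = x
          · rw [if_pos h3, mem_insert, mem_singleton] at hzu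
            rcases hzu with h4 | h4
            · rw [h4]
              exact mem_erase.2 ⟨hax.symm, hxS⟩
            · rw [h4]
              exact hya
          · rw [if_neg h3, mem_singleton] at hzu
            rw [hzu]
            exact hu2
      · intro u _
        by_cases h3 : u = x
        · simp only [if_pos h3]
          refine Clu.union (Clu.single x) (Clu.single y) (disjoint_singleton.2 hxy) ?_ rfl
          unfold wt
          rw [sum_singleton, sum_singleton]
          have h4 : g ∈ bet s t F x y := mem_filter.2 ⟨hg, Or.inl ⟨rfl, rfl⟩⟩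
          have h5 : g ∈ bet s t (insert g B') x y :=
            mem_filter.2 ⟨mem_insert_self _ _, Or.inl ⟨rfl, rfl⟩⟩
          have h6 := card_pos.2 ⟨g, h4⟩
          have h7 := card_pos.2 ⟨g, h5⟩
          unfold W
          omega
        · simp only [if_neg h3]
          exact Clu.single u
      · intro u hu z hz huz
        have key : ∀ p ∈ S', p ≠ x → p ∉ ({x, y} : Finset α) := by
          intro p hp hpx h3
          rcases mem_insert.1 h3 with h4 | h4
          · exact hpx h4
          · exact (mem_erase.1 hp).1 (mem_singleton.1 h4)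
        by_cases h3 : u = x
        · have h4 : z ≠ x := fun h5 => huz (h3.trans h5.symm)
          simp only [if_pos h3, if_neg h4]
          exact disjoint_singleton_right.2 (key z hz h4)
        · by_cases h4 : z = x
          · simp only [if_neg h3, if_pos h4]
            exact disjoint_singleton_left.2 (key u hu h3)
          · simp only [if_neg h3, if_neg h4]
            exact disjoint_singleton.2 huz
      · intro u _ z _ _
        have hf : ∀ p, p ∈ (if π p = x then {x, y} else {π p} : Finset α) := by
          intro p
          by_cases h3 : p = y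
          · rw [h3, hπy, if_pos rfl]
            exact mem_insert_of_mem (mem_singleton_self _)
          · rw [hπn p h3]
            by_cases h4 : p = x
            · rw [if_pos h4, h4]
              exact mem_insert_self _ _
            · rw [if_neg h4]
              exact mem_singleton_self p
        exact W_le (fun z => if z = x then {x, y} else {z}) hF'F (subset_insert _ _) hB'
          (fun e _ => hf (s e)) (fun e _ => hf (t e)) u z

end TB.Frac
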