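import Mathlib

/-!
# The lemma of Farkas over ordered fields, and integral covers

`farkas` : the proof of D. Bartl. `cover` : if every weight has a light member of a finite family of sets,
all of the same size, then some multiset of members covers every element equally often.
-/

set_option autoImplicit false

namespace TB.Frac

open Finset

/-- **the lemma of Farkas** -/
theorem farkas {K V : Type*} [Field K] [LinearOrder K] [IsStrictOrderedRing K] [AddCommGroup V]
    [Module K V] : ∀ (n : ℕ) (A : Fin n → V →ₗ[K] K) (l : V →ₗ[K] K),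
    (∀ x, (∀ i, 0 ≤ A i x) → 0 ≤ l x) → ∃ c : Fin n → K, (∀ i, 0 ≤ c i) ∧ l = ∑ i, c i • A i := by
  intro n
  induction n with
  | zero =>
    intro A l h
    refine ⟨fun _ => 0, fun _ => le_rfl, ?_⟩
    rw [univ_eq_empty, sum_empty]
    refine LinearMap.ext fun x => ?_
    have h1 := h x fun i => i.elim0
    have h2 := h (-x) fun i => i.elim0
    rw [map_neg] at h2
    exact le_antisymm (neg_nonneg.1 h2) h1
  | succ n ih =>
    intro A l h
    by_cases h1 : ∀ x, (∀ i : Fin n, 0 ≤ A i.castSucc x) → 0 ≤ l x
    · obtain ⟨c, hc, hl⟩ := ih (fun i => A i.castSucc) l h1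
      refine ⟨Fin.snoc c 0, ?_, ?_⟩
      · intro i
        refine Fin.lastCases ?_ (fun j => ?_) i
        · rw [Fin.snoc_last]
        · rw [Fin.snoc_castSucc]
          exact hc j
      · rw [Fin.sum_univ_castSucc, Fin.snoc_last, zero_smul, add_zero, hl]
        exact sum_congr rfl fun j _ => by rw [Fin.snoc_castSucc]
    · simp only [not_forall, not_le] at h1
      obtain ⟨y0, hy0, hly0⟩ := h1
      have hA0 : A (Fin.last n) y0 < 0 := by
        by_contra h2
        apply absurd (h y0 ?_) (not_le.2 hly0)
        intro i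
        refine Fin.lastCases ?_ (fun j => ?_) i
        · exact not_lt.1 h2
        · exact hy0 j
      -- normalize
      set r : K := (-(A (Fin.last n) y0))⁻¹ with hr
      have hr0 : 0 < r := inv_pos.2 (neg_pos.2 hA0)
      set y : V := r • y0 with hy
      have hAy : A (Fin.last n) y = -1 := by
        rw [hy, map_smul, smul_eq_mul, hr]
        have h3 : A (Fin.last n) y0 ≠ 0 := hA0.ne
        field_simp
      have hy1 : ∀ i : Fin n, 0 ≤ A i.castSucc y := fun i => by
        rw [hy, map_smul, smul_eq_mul]
        exact mul_nonneg hr0.le (hy0 i)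
      have hly : l y < 0 := by
        rw [hy, map_smul, smul_eq_mul]
        exact mul_neg_of_pos_of_neg hr0 hly0
      obtain ⟨c, hc, hl⟩ := ih (fun i => A i.castSucc + (A i.castSucc y) • A (Fin.last n))
        (l + (l y) • A (Fin.last n)) (by
          intro x hx
          have h3 := h (x + (A (Fin.last n) x) • y) (by
            intro i
            refine Fin.lastCases ?_ (fun j => ?_) i
            · rw [map_add, map_smul, smul_eq_mul, hAy]
              linarith
            · have h4 := hx j
              rw [LinearMap.add_apply, LinearMap.smul_apply, smul_eq_mul] at h4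
              rw [map_add, map_smul, smul_eq_mul]
              linarith [mul_comm (A j.castSucc y) (A (Fin.last n) x)])
          rw [map_add, map_smul, smul_eq_mul] at h3
          rw [LinearMap.add_apply, LinearMap.smul_apply, smul_eq_mul]
          linarith [mul_comm (l y) (A (Fin.last n) x)])
      refine ⟨Fin.snoc c (∑ i, c i * A i.castSucc y - l y), ?_, ?_⟩
      · intro i
        refine Fin.lastCases ?_ (fun j => ?_) i
        · rw [Fin.snoc_last]
          have h3 : 0 ≤ ∑ i, c i * A i.castSucc y :=
            sum_nonneg fun i _ => mul_nonneg (hc i) (hy1 i)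
          linarith
        · rw [Fin.snoc_castSucc]
          exact hc j
      · rw [Fin.sum_univ_castSucc, Fin.snoc_last]
        have h4 : ∑ i : Fin n, (Fin.snoc c (∑ i, c i * A i.castSucc y - l y) : Fin (n + 1) → K)
            i.castSucc • A i.castSucc = ∑ i : Fin n, c i • A i.castSucc :=
          sum_congr rfl fun j _ => by rw [Fin.snoc_castSucc]
        rw [h4]
        refine LinearMap.ext fun x => ?_
        have h3 := congrArg (fun f : V →ₗ[K] K => f x) hl
        simp only [LinearMap.add_apply, LinearMap.smul_apply, LinearMap.sum_apply,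
          smul_eq_mul] at h3 ⊢
        have h5 : ∑ i, c i * ((A i.castSucc) x + (A i.castSucc) y * (A (Fin.last n)) x) =
            ∑ i, c i * (A i.castSucc) x + (∑ i, c i * (A i.castSucc) y) * (A (Fin.last n)) x := by
          rw [sum_mul, ← sum_add_distrib]
          exact sum_congr rfl fun i _ => by ring
        rw [h5] at h3
        rw [sub_mul]
        rw [← add_sub_assoc, ← h3, add_sub_cancel_right]

/-- **integral covers** -/
theorem cover {E : Type*} [DecidableEq E] (F : Finset E) (hF : F.Nonempty)
    (P : Finset (Finset E)) (hP : ∀ B ∈ P, 3 * B.card = F.card ∧ B ⊆ F)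
    (h : ∀ w : E → ℚ, ∃ B ∈ P, 3 * ∑ e ∈ B, w e ≤ ∑ e ∈ F, w e) :
    ∃ (N : ℕ) (B : Fin (3 * N) → Finset E), 0 < N ∧ (∀ i, B i ∈ P) ∧
      ∀ e ∈ F, (univ.filter fun i => e ∈ B i).card = N := by
  classical
  -- Farkas
  set k := P.card with hk
  set φ : Fin k ≃ P := (Fintype.equivFinOfCardEq (Fintype.card_coe P)).symm with hφ
  let A : Finset E → (E → ℚ) →ₗ[ℚ] ℚ := fun B =>
    { toFun := fun w => 3 * ∑ e ∈ B, w e
      map_add' := fun w w' => by simp only [Pi.add_apply, sum_add_distrib]; ring
      map_smul' := fun r w => by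
        simp only [Pi.smul_apply, smul_eq_mul, RingHom.id_apply, ← mul_sum]; ring }
  let l : (E → ℚ) →ₗ[ℚ] ℚ :=
    { toFun := fun w => ∑ e ∈ F, w e
      map_add' := fun w w' => by simp only [Pi.add_apply, sum_add_distrib]
      map_smul' := fun r w => by
        simp only [Pi.smul_apply, smul_eq_mul, RingHom.id_apply, ← mul_sum] }
  obtain ⟨c0, hc0, hl0⟩ := farkas k (fun i => A (φ i).1) l (by
    intro w hw
    obtain ⟨B, hB, hB2⟩ := h w
    have h1 := hw (φ.symm ⟨B, hB⟩)
    rw [Equiv.apply_symm_apply] at h1
    exact le_trans h1 hB2)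
  -- coefficients on the family
  set c : Finset E → ℚ := fun B => if hB : B ∈ P then c0 (φ.symm ⟨B, hB⟩) else 0 with hc
  have hcn : ∀ B, 0 ≤ c B := by
    intro B
    simp only [hc]
    split_ifs with h1
    · exact hc0 _
    · exact le_rfl
  have hsum : ∀ g : Finset E → ℚ, ∑ i, c0 i * g (φ i).1 = ∑ B ∈ P, c B * g B := by
    intro g
    rw [← sum_coe_sort P fun B => c B * g B]
    refine Fintype.sum_equiv φ _ _ fun i => ?_
    have h1 : c (φ i).1 = c0 i := by
      simp only [hc, dif_pos (φ i).2]
      congr 1
      exact φ.symm_apply_apply i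
    rw [h1]
  have key : ∀ e ∈ F, ∑ B ∈ P, c B * (if e ∈ B then 3 else 0) = 1 := by
    intro e he
    have h1 := congrArg (fun f => f (Pi.single e 1)) hl0
    simp only [LinearMap.sum_apply, LinearMap.smul_apply, smul_eq_mul] at h1
    have h2 : l (Pi.single e 1) = 1 := by
      show ∑ e' ∈ F, (Pi.single e 1 : E → ℚ) e' = 1
      rw [sum_pi_single' ]
      simp [he]
    have h3 : ∀ B : Finset E, A B (Pi.single e 1) = if e ∈ B then 3 else 0 := by
      intro B
      show 3 * ∑ e' ∈ B, (Pi.single e 1 : E → ℚ) e' = _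
      rw [sum_pi_single']
      split_ifs <;> norm_num
    rw [h2] at h1
    rw [h1, ← hsum fun B => if e ∈ B then 3 else 0]
    exact sum_congr rfl fun i _ => by rw [h3]
  -- clear the denominators
  set N : ℕ := ∏ B ∈ P, (c B).den with hN
  have hNpos : 0 < N := prod_pos fun B _ => (c B).den_pos
  have hint : ∀ B ∈ P, ∃ m : ℕ, (m : ℚ) = 3 * N * c B := by
    intro B hB
    obtain ⟨q, hq⟩ := dvd_prod_of_mem (fun B => (c B).den) hB
    have h1 : (N : ℚ) * c B = q * (c B).num := by
      have h2 : (N : ℚ) = (c B).den * q := by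
        rw [hN, hq]
        push_cast
        ring
      rw [h2]
      have h3 := Rat.den_mul_eq_num (c B)
      rw [← h3]
      ring
    have h4 : 0 ≤ (c B).num := Rat.num_nonneg.2 (hcn B)
    refine ⟨3 * q * (c B).num.toNat, ?_⟩
    have h5 : (((c B).num.toNat : ℕ) : ℚ) = ((c B).num : ℚ) := by
      have := Int.toNat_of_nonneg h4
      exact_mod_cast this
    push_cast
    rw [h5, mul_assoc 3 (N : ℚ), h1]
    ring
  choose! m hm using hint
  have hcov : ∀ e ∈ F, ∑ B ∈ P, (if e ∈ B then m B else 0) = N := by
    intro e he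
    have h1 : ((∑ B ∈ P, (if e ∈ B then m B else 0) : ℕ) : ℚ) = N := by
      push_cast
      have h2 : ∀ B ∈ P, (if e ∈ B then (m B : ℚ) else 0) =
          N * (c B * (if e ∈ B then 3 else 0)) := by
        intro B hB
        split_ifs
        · rw [hm B hB]
          ring
        · ring
      rw [sum_congr rfl h2, ← mul_sum, key e he, mul_one]
    exact_mod_cast h1
  have htot : ∑ B ∈ P, m B = 3 * N := by
    have h1 : ∑ e ∈ F, ∑ B ∈ P, (if e ∈ B then m B else 0) = F.card * N := by
      rw [sum_congr rfl hcov, sum_const, smul_eq_mul]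
    rw [sum_comm] at h1
    have h2 : ∀ B ∈ P, ∑ e ∈ F, (if e ∈ B then m B else 0) = B.card * m B := by
      intro B hB
      rw [← sum_filter, sum_const, smul_eq_mul]
      congr 2
      ext e
      rw [mem_filter]
      exact ⟨fun h3 => h3.2, fun h3 => ⟨(hP B hB).2 h3, h3⟩⟩
    rw [sum_congr rfl h2] at h1
    have h3 : 3 * ∑ B ∈ P, B.card * m B = F.card * ∑ B ∈ P, m B := by
      rw [mul_sum, mul_sum]
      refine sum_congr rfl fun B hB => ?_
      rw [← (hP B hB).1]
      ring
    rw [h1] at h3
    have h4 : F.card * (∑ B ∈ P, m B) = F.card * (3 * N) := by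
      rw [← h3]
      ring
    exact Nat.eq_of_mul_eq_mul_left (card_pos.2 hF) h4
  -- the family with multiplicities
  let T := Σ B : P, Fin (m B.1)
  have hT : Fintype.card T = 3 * N := by
    rw [Fintype.card_sigma, ← htot, ← sum_coe_sort P fun B => m B]
    exact sum_congr rfl fun B _ => Fintype.card_fin _
  set ψ : Fin (3 * N) ≃ T := (Fintype.equivFinOfCardEq hT).symm with hψ
  refine ⟨N, fun i => (ψ i).1.1, hNpos, fun i => (ψ i).1.2, ?_⟩
  intro e he
  refine Eq.trans ?_ (hcov e he)
  rw [card_filter]
  refine (Fintype.sum_equiv ψ (fun i => if e ∈ (ψ i).1.1 then 1 else 0)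
    (fun p : T => if e ∈ p.1.1 then 1 else 0) fun i => rfl).trans ?_
  refine (Fintype.sum_sigma (fun p : T => if e ∈ p.1.1 then 1 else 0)).trans ?_
  rw [← sum_coe_sort P fun B => if e ∈ B then m B else 0]
  refine sum_congr rfl fun B _ => ?_
  by_cases h1 : e ∈ B.1
  · simp [h1]
  · simp [h1]

end TB.Frac
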