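import Pool.Agent.Lib.MP_80160f_co.Vert
import Pool.Agent.Lib.MP_80160f_co.Frac.Abs
import Pool.Agent.Lib.MP_80160f_co.Frac.Farkas

/-!
# MP_80160f_co : fractional partitions into 2-bases

A simple graph is read as a multigraph with the edge set `Sym2 α`. `cl_del` : the graph without a vertex
of a cubic graph with all edge cuts of size at least three is in the class of graphs. `frac_of_cl` : the
cover by 2-bases.
-/

set_option autoImplicit false
set_option linter.unusedSectionVars false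

namespace TB.Frac

open Finset

variable {α : Type*} [DecidableEq α] [Fintype α]

/-- the first end -/
noncomputable def e1 (e : Sym2 α) : α := (Quot.out e).1

/-- the second end -/
noncomputable def e2 (e : Sym2 α) : α := (Quot.out e).2

theorem mk_ends (e : Sym2 α) : s(e1 e, e2 e) = e := Quot.out_eq e

theorem ends_iff {e : Sym2 α} {x y : α} :
    ((e1 e = x ∧ e2 e = y) ∨ (e1 e = y ∧ e2 e = x)) ↔ e = s(x, y) := by
  conv_rhs => rw [← mk_ends e]
  rw [Sym2.eq_iff]

theorem inside_iff {e : Sym2 α} {X : Finset α} : (e1 e ∈ X ∧ e2 e ∈ X) ↔ ∀ z ∈ e, z ∈ X := by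
  have h : (∀ z ∈ e, z ∈ X) ↔ ∀ z ∈ s(e1 e, e2 e), z ∈ X := by rw [mk_ends]
  rw [h]
  constructor
  · rintro ⟨h1, h2⟩ z hz
    rcases Sym2.mem_iff.1 hz with h3 | h3
    · exact h3 ▸ h1
    · exact h3 ▸ h2
  · intro h1
    exact ⟨h1 _ (Sym2.mem_mk_left _ _), h1 _ (Sym2.mem_mk_right _ _)⟩

/-- the edges of the graph -/
noncomputable def eF (G : SimpleGraph α) : Finset (Sym2 α) := by
  classical
  exact univ.filter fun e => e ∈ G.edgeSet

theorem mem_eF {G : SimpleGraph α} {e : Sym2 α} : e ∈ eF G ↔ e ∈ G.edgeSet := by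
  classical
  unfold eF
  rw [mem_filter]
  exact ⟨fun h => h.2, fun h => ⟨mem_univ _, h⟩⟩

theorem coe_eF (G : SimpleGraph α) : ((eF G : Finset (Sym2 α)) : Set (Sym2 α)) = G.edgeSet :=
  Set.ext fun _ => mem_coe.trans mem_eF

theorem card_eF (G : SimpleGraph α) : (eF G).card = G.edgeSet.ncard := by
  rw [← coe_eF, Set.ncard_coe_finset]

/-- the number of edges inside of a set -/
theorem two_ins (G : SimpleGraph α) (X : Finset α) :
    2 * (ins e1 e2 (eF G) X).card = ∑ x ∈ X, ∑ y ∈ X, ew G x y := by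
  classical
  have h1 : ins e1 e2 (eF G) X = eF (inG G X) := by
    ext e
    rw [mem_ins, mem_eF, mem_eF, inside_iff]
    induction e with
    | h x y =>
      rw [SimpleGraph.mem_edgeSet, SimpleGraph.mem_edgeSet]
      constructor
      · rintro ⟨h2, h3⟩
        exact ⟨h2, h3 x (Sym2.mem_mk_left _ _), h3 y (Sym2.mem_mk_right _ _)⟩
      · rintro ⟨h2, h3, h4⟩
        refine ⟨h2, fun z hz => ?_⟩
        rcases Sym2.mem_iff.1 hz with h5 | h5
        · exact h5 ▸ h3
        · exact h5 ▸ h4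
  rw [h1, card_eF, ← sum_adj]
  have h2 : ∀ x y, ew (inG G X) x y = if x ∈ X then (if y ∈ X then ew G x y else 0) else 0 := by
    intro x y
    by_cases hx : x ∈ X
    · by_cases hy : y ∈ X
      · rw [if_pos hx, if_pos hy]
        by_cases h3 : G.Adj x y
        · have h4 : (inG G X).Adj x y := ⟨h3, hx, hy⟩
          rw [ew_adj h3, ew_adj h4]
        · rw [ew_not h3, ew_not fun h4 : (inG G X).Adj x y => h3 h4.1]
      · rw [if_pos hx, if_neg hy, ew_not fun h4 : (inG G X).Adj x y => hy h4.2.2]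
    · rw [if_neg hx, ew_not fun h4 : (inG G X).Adj x y => hx h4.2.1]
  have h3 : ∀ x, ∑ y, ew (inG G X) x y = if x ∈ X then ∑ y ∈ X, ew G x y else 0 := by
    intro x
    by_cases hx : x ∈ X
    · rw [if_pos hx]
      rw [sum_congr rfl fun y _ => (h2 x y).trans (if_pos hx)]
      rw [← sum_filter]
      refine sum_congr ?_ fun _ _ => rfl
      ext y
      rw [mem_filter]
      exact ⟨fun h => h.2, fun h => ⟨mem_univ _, h⟩⟩
    · rw [if_neg hx]
      exact sum_eq_zero fun y _ => (h2 x y).trans (if_neg hx)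
  rw [sum_congr rfl fun x _ => h3 x, ← sum_filter]
  refine sum_congr ?_ fun _ _ => rfl
  ext y
  rw [mem_filter]
  exact ⟨fun h => h.2, fun h => ⟨mem_univ _, h⟩⟩

/-- the weights -/
theorem W_le_gw (G : SimpleGraph α) {B : Finset (Sym2 α)} (hB : B ⊆ eF G) (x y : α) :
    W e1 e2 (eF G) B x y ≤ gw G (B : Set (Sym2 α)) x y := by
  classical
  have h1 : ∀ A : Finset (Sym2 α), bet e1 e2 A x y ⊆ {s(x, y)} := by
    intro A e he
    rw [mem_singleton]
    exact ends_iff.1 (mem_filter.1 he).2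
  unfold W gw
  by_cases h2 : G.Adj x y
  · rw [if_pos h2]
    have h3 := (card_le_card (h1 (eF G))).trans (card_singleton _).le
    by_cases h4 : s(x, y) ∈ (B : Set (Sym2 α))
    · rw [if_pos h4]
      have h5 := (card_le_card (h1 B)).trans (card_singleton _).le
      omega
    · rw [if_neg h4]
      have h5 : bet e1 e2 B x y = ∅ := by
        rw [← not_nonempty_iff_eq_empty]
        rintro ⟨e, he⟩
        have h6 := mem_singleton.1 (h1 B he)
        exact h4 (mem_coe.2 (h6 ▸ (mem_filter.1 he).1))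
      rw [h5, card_empty]
      omega
  · rw [if_neg h2]
    have h5 : ∀ A ⊆ eF G, bet e1 e2 A x y = ∅ := by
      intro A hA
      rw [← not_nonempty_iff_eq_empty]
      rintro ⟨e, he⟩
      have h6 := mem_singleton.1 (h1 A he)
      exact h2 (mem_eF.1 (h6 ▸ hA (mem_filter.1 he).1))
    rw [h5 _ (Subset.refl _), h5 _ hB, card_empty]

/-- **light 2-bases** -/
theorem light_of_cl {R : Type*} [Field R] [LinearOrder R] [IsStrictOrderedRing R]
    (G : SimpleGraph α) (h : Cl e1 e2 (eF G) (univ : Finset α)) (w : Sym2 α → R) :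
    ∃ B ⊆ eF G, 3 * B.card = (eF G).card ∧ 3 * ∑ e ∈ B, w e ≤ ∑ e ∈ eF G, w e ∧
      IsKBase G 2 (B : Set (Sym2 α)) := by
  obtain ⟨B, hB, h1, h2, h3⟩ := exists_light _ _ rfl e1 e2 (eF G) w h
  refine ⟨B, hB, h1, h2, isKBase_of_clu ?_ (h3.mono fun a _ b _ => W_le_gw G hB a b)⟩
  rw [← coe_eF]
  exact coe_subset.2 hB

/-- **covers by 2-bases** -/
theorem frac_of_cl (G : SimpleGraph α) (h : Cl e1 e2 (eF G) (univ : Finset α))
    (hne : (eF G).Nonempty) :
    ∃ (N : ℕ) (B : Fin (3 * N) → Set (Sym2 α)), 0 < N ∧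
      (∀ i, IsKBase G 2 (B i) ∧ 3 * (B i).ncard = G.edgeSet.ncard) ∧
      ∀ e ∈ G.edgeSet, {i | e ∈ B i}.ncard = N := by
  classical
  set P : Finset (Finset (Sym2 α)) := (eF G).powerset.filter fun B =>
    3 * B.card = (eF G).card ∧ IsKBase G 2 (B : Set (Sym2 α)) with hP
  obtain ⟨N, B, hN, hB, hc⟩ := cover (eF G) hne P
    (fun B hB => ⟨(mem_filter.1 hB).2.1, mem_powerset.1 (mem_filter.1 hB).1⟩)
    (fun w => by
      obtain ⟨B, h1, h2, h3, h4⟩ := light_of_cl G h w
      exact ⟨B, mem_filter.2 ⟨mem_powerset.2 h1, h2, h4⟩, h3⟩)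
  refine ⟨N, fun i => (B i : Set (Sym2 α)), hN, fun i => ?_, fun e he => ?_⟩
  · have h1 := (mem_filter.1 (hB i)).2
    refine ⟨h1.2, ?_⟩
    rw [Set.ncard_coe_finset, h1.1, card_eF]
  · refine Eq.trans ?_ (hc e (mem_eF.2 he))
    rw [← Set.ncard_coe_finset]
    congr 1
    ext i
    rw [mem_coe, mem_filter]
    exact ⟨fun h => ⟨mem_univ _, mem_coe.1 h⟩, fun h => mem_coe.2 h.2⟩

/-- the graph without a vertex of a cubic graph with large edge cuts -/
theorem cl_del {V : Type*} [DecidableEq V] [Fintype V] {H : SimpleGraph V} (h : Cubic3 H) (v : V) :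
    Cl e1 e2 (eF (H.induce ({v}ᶜ : Set V))) (univ : Finset ({v}ᶜ : Set V)) := by
  classical
  set G := H.induce ({v}ᶜ : Set V) with hG
  have hne : (univ : Finset ({v}ᶜ : Set V)).Nonempty := by
    have h2 := h.deg v
    obtain ⟨w, -, hw⟩ := exists_ne_zero_of_sum_ne_zero (s := univ) (f := fun y => ew H v y)
      (by rw [h2]; omega)
    refine ⟨⟨w, fun h3 => hw ?_⟩, mem_univ _⟩
    rw [Set.mem_singleton_iff] at h3
    rw [h3]
    exact ew_not (H.loopless.irrefl v)
  refine ⟨hne, fun e _ => ⟨mem_univ _, mem_univ _⟩, ?_, ?_⟩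
  · intro X _ hX
    rw [two_ins]
    set Y : Finset V := X.map (Function.Embedding.subtype _) with hY
    have hYne : Y.Nonempty := hX.map
    have hvY : v ∈ Yᶜ := by
      rw [mem_compl, hY, mem_map]
      rintro ⟨x, -, hx⟩
      exact x.2 (Set.mem_singleton_iff.2 hx)
    have h1 := h.cut Y hYne ⟨v, hvY⟩
    have h2 : ∑ x ∈ Y, (∑ y ∈ Y, ew H x y + ∑ y ∈ Yᶜ, ew H x y) = 3 * Y.card := by
      rw [sum_congr rfl fun x _ => (sum_add_sum_compl Y (fun y => ew H x y)).trans (h.deg x),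
        sum_const, smul_eq_mul, mul_comm]
    rw [sum_add_distrib] at h2
    have h3 : ec H Y Yᶜ = ∑ x ∈ Y, ∑ y ∈ Yᶜ, ew H x y := rfl
    have h4 : ∑ x ∈ Y, ∑ y ∈ Y, ew H x y = ∑ x ∈ X, ∑ y ∈ X, ew G x y := by
      rw [hY, sum_map]
      refine sum_congr rfl fun x _ => ?_
      rw [sum_map]
      refine sum_congr rfl fun y _ => ?_
      unfold ew
      rfl
    have h5 : Y.card = X.card := card_map _
    rw [← h4, ← h5]
    omega
  · rw [card_eF, card_edges_del h v, card_univ]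

theorem eF_nonempty {V : Type*} [DecidableEq V] [Fintype V] {H : SimpleGraph V} (h : Cubic3 H)
    (v : V) : (eF (H.induce ({v}ᶜ : Set V))).Nonempty := by
  have h2 : ∑ y : ({v}ᶜ : Set V), ew H v y = 3 := by
    rw [sum_del v fun y => ew H v y]
    have h3 := h.deg v
    rwa [← add_sum_erase univ _ (mem_univ v), ew_not (H.loopless.irrefl v), zero_add] at h3
  have h3 : ∑ y : ({v}ᶜ : Set V), ew H v y ≤ ∑ _y : ({v}ᶜ : Set V), 1 :=
    sum_le_sum fun y _ => ew_le H v y
  rw [h2, sum_const, smul_eq_mul, mul_one] at h3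
  have h1 := (cl_del h v).tot
  exact card_pos.1 (by omega)

/-- **fractional partitions into 2-bases** -/
theorem frac_del {V : Type*} [DecidableEq V] [Fintype V] {H : SimpleGraph V} (h : Cubic3 H)
    (v : V) :
    ∃ (N : ℕ) (B : Fin (3 * N) → Set (Sym2 ({v}ᶜ : Set V))), 0 < N ∧
      (∀ i, IsKBase (H.induce ({v}ᶜ : Set V)) 2 (B i) ∧
        3 * (B i).ncard = (H.induce ({v}ᶜ : Set V)).edgeSet.ncard) ∧
      ∀ e ∈ (H.induce ({v}ᶜ : Set V)).edgeSet, {i | e ∈ B i}.ncard = N :=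
  frac_of_cl _ (cl_del h v) (eF_nonempty h v)

end TB.Frac
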